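import Pool.Agent.H59.L.S8.W695.KH.Defs
import Pool.Agent.H59.L.S8.H888R2.KT.N0b

/-!
# Standard Gaussian moments
-/

set_option autoImplicit false

namespace Pool.Agent.W902.KH

open MeasureTheory Set Filter Topology
open Pool.Agent.W695.KH
open scoped ENNReal InnerProductSpace Pointwise

variable {κ : Type} [Fintype κ]

/-- the normalising constant -/
noncomputable def Z (κ : Type) [Fintype κ] : ℝ := ∫ z : Eu κ, Real.exp (-(‖z‖ ^ 2 / 2))

theorem int_exp : Integrable fun z : Eu κ => Real.exp (-(‖z‖ ^ 2 / 2)) := by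
  have h := Pool.Agent.H888R2.KT.N0bx.int0 (κ := κ) (1 / 2) (by norm_num)
  refine h.congr (Filter.Eventually.of_forall fun y => ?_)
  simp only
  congr 1
  ring

theorem Z_pos : 0 < Z κ := by
  unfold Z
  rw [integral_pos_iff_support_of_nonneg (fun _ => (Real.exp_pos _).le) int_exp]
  have : Function.support (fun z : Eu κ => Real.exp (-(‖z‖ ^ 2 / 2))) = Set.univ := by
    ext z
    simp [Function.mem_support, (Real.exp_pos _).ne']
  rw [this]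
  exact Measure.measure_univ_pos.2 (NeZero.ne _)

theorem ga_eq (w : Eu κ) : ga w = Real.exp (-(‖w‖ ^ 2 / 2)) / Z κ := rfl

theorem int_pow (k : ℕ) : Integrable fun w : Eu κ => ‖w‖ ^ k * Real.exp (-(‖w‖ ^ 2 / 2)) := by
  have h1 : Integrable fun w : Eu κ => Real.exp (-(‖w‖ ^ 2 / 2)) +
      (4 ^ k * (k.factorial : ℝ)) * Real.exp (-(1 / 4 * ‖w‖ ^ 2)) :=
    int_exp.add ((Pool.Agent.H888R2.KT.N0bx.int0 (κ := κ) (1 / 4) (by norm_num)).const_mul _)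
  refine h1.mono' ?_ (Filter.Eventually.of_forall fun w => ?_)
  · apply Continuous.aestronglyMeasurable
    fun_prop
  · have hn := norm_nonneg w
    rw [Real.norm_of_nonneg (by positivity)]
    have h2 : ‖w‖ ^ k ≤ 1 + (‖w‖ ^ 2) ^ k := by
      have h3 := sq_nonneg (‖w‖ ^ k - 1)
      have h4 : (‖w‖ ^ 2) ^ k = (‖w‖ ^ k) ^ 2 := by ring
      rw [h4]
      nlinarith [pow_nonneg hn k, sq_nonneg (‖w‖ ^ k)]
    have h3 : (‖w‖ ^ 2) ^ k ≤ 4 ^ k * k.factorial * Real.exp (1 / 4 * ‖w‖ ^ 2) := by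
      have h4 := Real.pow_div_factorial_le_exp (1 / 4 * ‖w‖ ^ 2) (by positivity) k
      rw [div_le_iff₀ (by positivity), mul_pow] at h4
      have h5 : (0 : ℝ) < 4 ^ k := by positivity
      calc (‖w‖ ^ 2) ^ k = 4 ^ k * ((1 / 4) ^ k * (‖w‖ ^ 2) ^ k) := by
            rw [← mul_assoc, ← mul_pow]; norm_num
        _ ≤ 4 ^ k * (Real.exp (1 / 4 * ‖w‖ ^ 2) * k.factorial) :=
            mul_le_mul_of_nonneg_left h4 h5.le
        _ = _ := by ring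
    have h6 : Real.exp (1 / 4 * ‖w‖ ^ 2) * Real.exp (-(‖w‖ ^ 2 / 2)) =
        Real.exp (-(1 / 4 * ‖w‖ ^ 2)) := by
      rw [← Real.exp_add]
      congr 1
      ring
    calc ‖w‖ ^ k * Real.exp (-(‖w‖ ^ 2 / 2))
        ≤ (1 + 4 ^ k * k.factorial * Real.exp (1 / 4 * ‖w‖ ^ 2)) * Real.exp (-(‖w‖ ^ 2 / 2)) :=
          mul_le_mul_of_nonneg_right (by linarith) (Real.exp_pos _).le
      _ = Real.exp (-(‖w‖ ^ 2 / 2)) + 4 ^ k * k.factorial *
          (Real.exp (1 / 4 * ‖w‖ ^ 2) * Real.exp (-(‖w‖ ^ 2 / 2))) := by ring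
      _ = _ := by rw [h6]

theorem sq_moment (w : Eu κ) :
    Integrable (fun y : Eu κ => ⟪w, y⟫_ℝ ^ 2 * Real.exp (-(‖y‖ ^ 2 / 2))) ∧
    ∫ y : Eu κ, ⟪w, y⟫_ℝ ^ 2 * Real.exp (-(‖y‖ ^ 2 / 2)) = ‖w‖ ^ 2 * Z κ ∧
    ∫ y : Eu κ, ⟪w, y⟫_ℝ * Real.exp (-(‖y‖ ^ 2 / 2)) = 0 := by
  obtain ⟨h1, h2, h3⟩ := Pool.Agent.H888R2.KT.gauss2 (κ := κ) 1 one_pos w
  simp only [mul_one, one_mul, real_inner_comm w] at h1 h2 h3
  refine ⟨h1, ?_, h3⟩
  rw [h2]
  unfold Pool.Agent.H888R2.KT.gc Z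
  simp only [mul_one]

theorem t_gauss : S_gauss := by
  intro κ _
  have hZ : Z κ ≠ 0 := Z_pos.ne'
  refine ⟨?_, ?_, ?_, ?_, ?_, ?_, ?_⟩
  · intro w
    rw [ga_eq]
    exact div_pos (Real.exp_pos _) Z_pos
  · have : Continuous fun w : Eu κ => Real.exp (-(‖w‖ ^ 2 / 2)) / Z κ := by
      refine Continuous.div_const ?_ _
      fun_prop
    exact this
  · intro w
    rw [ga_eq, ga_eq, norm_neg]
  · intro k
    refine ((int_pow (κ := κ) k).div_const (Z κ)).congr (Filter.Eventually.of_forall fun w => ?_)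
    simp only [ga_eq]
    ring
  · simp only [ga_eq]
    rw [integral_div]
    exact div_self hZ
  · intro a
    have h1 : ∀ w : Eu κ, ⟪a, w⟫_ℝ * ga w = ⟪a, w⟫_ℝ * Real.exp (-(‖w‖ ^ 2 / 2)) / Z κ := by
      intro w
      rw [ga_eq, mul_div_assoc]
    simp only [h1]
    rw [integral_div, (sq_moment a).2.2, zero_div]
  · intro a b
    have h1 : ∀ w : Eu κ, ⟪a, w⟫_ℝ * ⟪b, w⟫_ℝ * ga w =
        (⟪a + b, w⟫_ℝ ^ 2 * Real.exp (-(‖w‖ ^ 2 / 2)) -
          ⟪a, w⟫_ℝ ^ 2 * Real.exp (-(‖w‖ ^ 2 / 2)) -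
          ⟪b, w⟫_ℝ ^ 2 * Real.exp (-(‖w‖ ^ 2 / 2))) / (2 * Z κ) := by
      intro w
      rw [ga_eq, inner_add_left]
      field_simp
      ring
    simp only [h1]
    have h2 : Integrable fun w : Eu κ => ⟪a + b, w⟫_ℝ ^ 2 * Real.exp (-(‖w‖ ^ 2 / 2)) -
        ⟪a, w⟫_ℝ ^ 2 * Real.exp (-(‖w‖ ^ 2 / 2)) := (sq_moment (a + b)).1.sub (sq_moment a).1
    rw [integral_div, integral_sub h2 (sq_moment b).1,
      integral_sub (sq_moment (a + b)).1 (sq_moment a).1, (sq_moment (a + b)).2.1,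
      (sq_moment a).2.1, (sq_moment b).2.1, norm_add_sq_real]
    field_simp
    ring

end Pool.Agent.W902.KH
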